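import Pool.Agent.Lib.MP_a6d6d3_gt.Grid3

/-!
# MP_a6d6d3_gt: the group `G(L)` of the 2 × 2 grid link

`L` is the nonsplittable link with four components formed by two parallel (unlinked) copies of each
component of the Hopf link. Its group is
`⟨x₀, x₁, x₂, x₃ | x₀x₂ commutes with x₁, x₃; x₁x₃ commutes with x₀, x₂⟩`.
-/

namespace Pool.Agent.Results.MP_a6d6d3_gt.GridLink

open Pool.Agent.Lib.MP_a6d6d3_gt
open scoped commutatorElement

/-- The group `G(L)` of the grid link consists of the pairs of elements of the integral group ring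
of the free group of rank two with equal augmentations. -/
theorem result :
    (⨅ i, mer gridMer i) = Subgroup.normalClosure {⁅gridMer 0, gridMer 1⁆} ∧
    ∃ K : AddSubgroup ((FreeGroup (Fin 2) →₀ ℤ) × (FreeGroup (Fin 2) →₀ ℤ)),
      (∀ x, x ∈ K ↔ (x.1.sum fun _ n => n) = (x.2.sum fun _ n => n)) ∧
      Nonempty (LinkQuotient gridMer ≃* Multiplicative K) :=
  ⟨iInf_eq_gD, gK, fun _ => Iff.rfl, ⟨gridEquiv⟩⟩

end Pool.Agent.Results.MP_a6d6d3_gt.GridLink
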