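import Pool.Agent.Lib.MP_a6d6d3_gt.Rem.Spl

/-!
# MP_a6d6d3_gt: links with sublinks that are split unions of knots (and of sublinks with sections)

For a group `π` with elements `m_1, …, m_N` (the link group and its meridians) and `R_i` the normal
closure of `m_i`; `k` is removable if `π / R_k` is a free product of groups which satisfy Kervaire's
conditions with one meridian (knot groups) or lift to `π` together with their meridians (this is
also the result on links with meridional sections of an earlier version):

* if `k` is removable, then `[R_1, …, R_N]_S = [R_i : i ≠ k]_S ∩ R_k` and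
  `1 → G(L) → (∩_{i ≠ k} R_i) / [R_i : i ≠ k]_S → G(L - K_k)` is exact;
* if `L - K_k` is a split union of knots, then `G(L) = (∩_{i ≠ k} R_i) / [R_i : i ≠ k]_S`;
* if all `k` but `a, b` are removable, then `[R_1, …, R_N]_S = [R_a, R_b] ∩ R_1 ∩ … ∩ R_N`, so
  `G(L) = 1` if `R_a ∩ R_b = [R_a, R_b]`;
* if all `k` but one are removable, then `G(L) = 1`.
-/

namespace Pool.Agent.Results.MP_a6d6d3_gt.SplitSublinks

open Pool.Agent.Lib.MP_a6d6d3_gt

universe u

/-- Forgetting removable components. -/
theorem result {π : Type u} [Group π] {n : ℕ} (m : Fin (n + 2) → π) :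
    (∀ k, MeridionalSection m k ∨ CompletelySplit m k → Removable m k) ∧
    (∀ k, Removable m k →
      symmetricCommutator (mer m) = symmetricCommutator (mer (restMer m k)) ⊓ mer m k ∧
      ExactSeq m k ∧
      (MeridionalSection m k → OntoSub m k) ∧
      (CompletelySplit m k → IsoRest m k)) ∧
    (∀ a b, a ≠ b → (∀ k, k ≠ a → k ≠ b → Removable m k) →
      symmetricCommutator (mer m) = ⁅mer m a, mer m b⁆ ⊓ capMer m ∧
      (mer m a ⊓ mer m b = ⁅mer m a, mer m b⁆ → Subsingleton (LGrp m))) ∧
    (∀ k₀, (∀ k, k ≠ k₀ → Removable m k) →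
      capMer m = symmetricCommutator (mer m) ∧ Subsingleton (LGrp m)) := by
  refine ⟨?_, ?_, ?_, ?_⟩
  · rintro k (h | h)
    · exact (RemovableIn.of_section h).removable
    · exact h.removable
  · intro k h
    exact ⟨h.removableIn.symmetricCommutator_eq, ⟨toRest_injective h, range_toRest m k⟩,
      fun h' => toSub_surjective h', fun h' => toRest_bijective h'⟩
  · intro a b hab h
    have h1 := symmetricCommutator_eq_of_removable m a b hab
      fun k hka hkb => (h k hka hkb).removableIn
    refine ⟨h1, fun h2 => linkQuotient_subsingleton m ?_⟩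
    rw [h1, ← h2]
    exact le_antisymm (le_inf (le_inf (iInf_le _ a) (iInf_le _ b)) le_rfl) inf_le_right
  · intro k₀ h
    have h1 := iInf_eq_of_removable m k₀ fun k hk => (h k hk).removableIn
    exact ⟨h1, linkQuotient_subsingleton m h1⟩

end Pool.Agent.Results.MP_a6d6d3_gt.SplitSublinks
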