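import Pool.Agent.Lib.MP_a6d6d3_gt.Torus

/-!
# MP_a6d6d3_gt: split unions with infinitely generated `G(L)`

If `L = L₀ ⊔ L₁` is a split union of a link `L₀` with `G(L₀)` nontrivial and a nonempty link `L₁`,
then `G(L)` is not finitely generated. This applies to `L₀` the torus link `T(3,3)` and all
nonempty `L₁`, so for every `n ≥ 4` there are `n`-component links with `G(L)` not finitely
generated.
-/

namespace Pool.Agent.Results.MP_a6d6d3_gt.SplitUnionsInfinite

open Pool.Agent.Lib.MP_a6d6d3_gt

/-- Split unions with infinitely generated `G(L)`. -/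
theorem result {A Q : Type*} [Group A] [Group Q] {p r : ℕ} (m : Fin p → A) (t : Fin (r + 1) → Q)
    (δ : Q →* Multiplicative ℤ) (hδ : ∀ j, δ (t j) = Multiplicative.ofAdd 1) :
    (Nontrivial (LinkQuotient m) → ¬ Group.FG (LinkQuotient (splitUnion m t))) ∧
    Nontrivial (LinkQuotient torusMer) ∧
    ¬ Group.FG (LinkQuotient (splitUnion torusMer t)) := by
  refine ⟨fun h => not_fg_split δ m t hδ (not_subsingleton_iff_nontrivial.2 h),
    not_subsingleton_iff_nontrivial.1 torus_nontrivial,
    not_fg_split δ torusMer t hδ torus_nontrivial⟩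

end Pool.Agent.Results.MP_a6d6d3_gt.SplitUnionsInfinite
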