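import Pool.Agent.Lib.MP_a6d6d3_gt.TorusFinal

/-!
# MP_a6d6d3_gt: the group `G(L)` for the split unions `L = T(3,3) ⊔ L₁`

`T(3,3)` is the torus link with three components (three fibres of the Hopf fibration). For every
link `L₁` with group `Q` such that all maps forgetting one component of `L₁` have meridional
sections (knots, trivial links, Brunnian links, …), `G(T(3,3) ⊔ L₁)` is isomorphic to the
intersection of the kernels of the maps `ℤ[Q] → ℤ[Q / R_j]` of integral group rings.
-/

namespace Pool.Agent.Results.MP_a6d6d3_gt.TorusLinkPlusLink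

open Pool.Agent.Lib.MP_a6d6d3_gt

/-- The group `G(T(3,3) ⊔ L₁)`. -/
theorem result {Q : Type*} [Group Q] {r : ℕ} (t : Fin r → Q)
    (ht : ∀ j, MeridionalSection t j ∨ TrivialSublink t j) :
    ∃ K : AddSubgroup (Q →₀ ℤ),
      (∀ f, f ∈ K ↔ ∀ j,
        Finsupp.mapDomain (fun q : Q => (QuotientGroup.mk q : Q ⧸ mer t j)) f = 0) ∧
      Nonempty (LinkQuotient (splitUnion torusMer t) ≃* Multiplicative K) := by
  refine ⟨groupRingKer t, mem_groupRingKer t, ⟨torusSplitEquiv t fun j => ?_⟩⟩
  exact (ht j).elim id (MeridionalSection.of_trivialSublink t j)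

end Pool.Agent.Results.MP_a6d6d3_gt.TorusLinkPlusLink
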